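import Mathlib

/-!
# MP_32a6cf_lc : copyless cost register automata over the rationals are not closed under reversal

For every finite alphabet with at least two letters there is a function recognised by a copyless
cost register automaton over `ℚ` whose reversal is recognised by no such automaton.

The function: one state, registers `x, y`, initially `0, 1`; letter `a` does `y := y + 1`, letter
`b` does `x := x * y + 1; y := 1`, all other letters do nothing, the output is `x`.
The proof that the reversal is not recognised reduces the automaton modulo a large prime `p`: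
after a word `f` that makes as many registers as possible forget the past, every register that
still remembers something is updated along loops by an affine map of ONE old register, so
suitable powers of loops act on the registers modulo `p` as retractions `y_j := y_j` or
`y_j := const`.  A pigeonhole argument on the sets of forgotten registers gives two loops whose
order cannot be seen by the automaton, while the reversed function sees it.
-/

namespace Pool.Agent.Results.MP_32a6cf_lc.ReversalFails

open Finset

/-- Terms built from registers `x_0, ..., x_{d-1}` and rational constants with `+` and `*`. -/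
inductive Term (d : ℕ) : Type
  | var (i : Fin d) : Term d
  | const (c : ℚ) : Term d
  | add (s t : Term d) : Term d
  | mul (s t : Term d) : Term d

/-- Number of occurrences of register `i` in a term. -/
def Term.occ {d : ℕ} (i : Fin d) : Term d → ℕ
  | .var j => if i = j then 1 else 0
  | .const _ => 0
  | .add s t => s.occ i + t.occ i
  | .mul s t => s.occ i + t.occ i

/-- Value of a term at given register contents. -/
def Term.eval {d : ℕ} (x : Fin d → ℚ) : Term d → ℚ
  | .var j => x j
  | .const c => c
  | .add s t => s.eval x + t.eval x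
  | .mul s t => s.eval x * t.eval x

/-- A copyless cost register automaton over `ℚ` with input alphabet `A`. -/
structure CCRA (A : Type) where
  /-- states -/
  Q : Type
  /-- there are finitely many states -/
  finQ : Finite Q
  /-- initial state -/
  q0 : Q
  /-- number of registers -/
  d : ℕ
  /-- next state -/
  next : Q → A → Q
  /-- register update: register `j` receives the value of the term `upd q a j` -/
  upd : Q → A → Fin d → Term d
  /-- each register occurs at most once in the whole update tuple -/
  upd_copyless : ∀ q a i, ∑ j, (upd q a j).occ i ≤ 1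
  /-- initial register contents -/
  init : Fin d → ℚ
  /-- output term of each state -/
  out : Q → Term d
  /-- each register occurs at most once in the output term -/
  out_copyless : ∀ q i, (out q).occ i ≤ 1

/-- Running the automaton on a word from a configuration (state, register contents). -/
def CCRA.run {A : Type} (M : CCRA A) : List A → M.Q × (Fin M.d → ℚ) → M.Q × (Fin M.d → ℚ)
  | [], c => c
  | a :: w, c => M.run w (M.next c.1 a, fun j => (M.upd c.1 a j).eval c.2)

/-- The value of the automaton on a word. -/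
def CCRA.value {A : Type} (M : CCRA A) (w : List A) : ℚ :=
  (M.out (M.run w (M.q0, M.init)).1).eval (M.run w (M.q0, M.init)).2

/-- `f` is recognisable by a copyless cost register automaton over `ℚ`. -/
def Recognisable {A : Type} (f : List A → ℚ) : Prop :=
  ∃ M : CCRA A, ∀ w, M.value w = f w

/-! ## Terms over a field -/

/-- Value of a term in a field (constants are cast). -/
def Term.evK {d : ℕ} {K : Type} [Field K] (x : Fin d → K) : Term d → K
  | .var j => x j
  | .const c => (c : K)
  | .add s t => s.evK x + t.evK x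
  | .mul s t => s.evK x * t.evK x

lemma Term.evK_congr {d : ℕ} {K : Type} [Field K] (t : Term d) {x y : Fin d → K}
    (h : ∀ i, 0 < t.occ i → x i = y i) : t.evK x = t.evK y := by
  induction t with
  | var j => exact h j (by simp [Term.occ])
  | const c => rfl
  | add s t ihs iht =>
    simp only [Term.evK]
    rw [ihs (fun i hi => h i (by simp only [Term.occ]; omega)),
      iht (fun i hi => h i (by simp only [Term.occ]; omega))]
  | mul s t ihs iht =>
    simp only [Term.evK]
    rw [ihs (fun i hi => h i (by simp only [Term.occ]; omega)),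
      iht (fun i hi => h i (by simp only [Term.occ]; omega))]

lemma Term.evK_update_of_occ_zero {d : ℕ} {K : Type} [Field K] (t : Term d) (i : Fin d)
    (h : t.occ i = 0) (x : Fin d → K) (z : K) :
    t.evK (Function.update x i z) = t.evK x := by
  apply Term.evK_congr
  intro j hj
  have : j ≠ i := by
    rintro rfl
    omega
  exact Function.update_of_ne this _ _

lemma Term.evK_affine {d : ℕ} {K : Type} [Field K] (t : Term d) (i : Fin d) (h : t.occ i ≤ 1)
    (x : Fin d → K) : ∃ c e : K, ∀ z, t.evK (Function.update x i z) = c * z + e := by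
  induction t with
  | var j =>
    by_cases hij : j = i
    · subst hij
      exact ⟨1, 0, fun z => by simp [Term.evK]⟩
    · exact ⟨0, x j, fun z => by simp [Term.evK, Function.update_of_ne hij]⟩
  | const c => exact ⟨0, c, fun z => by simp [Term.evK]⟩
  | add s t ihs iht =>
    simp only [Term.occ] at h
    obtain ⟨c, e, h1⟩ := ihs (by omega)
    obtain ⟨c', e', h2⟩ := iht (by omega)
    refine ⟨c + c', e + e', fun z => ?_⟩
    simp only [Term.evK, h1, h2]
    ring
  | mul s t ihs iht =>
    simp only [Term.occ] at h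
    by_cases hs : s.occ i = 0
    · obtain ⟨c', e', h2⟩ := iht (by omega)
      refine ⟨s.evK x * c', s.evK x * e', fun z => ?_⟩
      simp only [Term.evK, h2, Term.evK_update_of_occ_zero s i hs]
      ring
    · have ht : t.occ i = 0 := by omega
      obtain ⟨c', e', h2⟩ := ihs (by omega)
      refine ⟨c' * t.evK x, e' * t.evK x, fun z => ?_⟩
      simp only [Term.evK, h2, Term.evK_update_of_occ_zero t i ht]
      ring

/-! ## Copyless maps -/

/-- `F` is copyless with flow `σ`: the old register `a` influences at most the new register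
`σ a`, and it does so in an affine way. -/
def CL {d : ℕ} {K : Type} [Field K] (F : (Fin d → K) → (Fin d → K))
    (σ : Fin d → Option (Fin d)) : Prop :=
  (∀ j x y, (∀ a, σ a = some j → x a = y a) → F x j = F y j) ∧
  (∀ a j, σ a = some j → ∀ x, ∃ c e : K, ∀ z, F (Function.update x a z) j = c * z + e)

lemma CL_id {d : ℕ} {K : Type} [Field K] :
    CL (fun x : Fin d → K => x) (fun a => some a) := by
  refine ⟨fun j x y h => h j rfl, ?_⟩
  intro a j haj x
  have : a = j := by simpa using haj
  subst this
  exact ⟨1, 0, fun z => by simp⟩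

lemma CL_comp {d : ℕ} {K : Type} [Field K] {F G : (Fin d → K) → (Fin d → K)}
    {σ τ : Fin d → Option (Fin d)} (hF : CL F σ) (hG : CL G τ) :
    CL (fun x => G (F x)) (fun a => (σ a).bind τ) := by
  refine ⟨?_, ?_⟩
  · intro j x y h
    apply hG.1
    intro b hb
    apply hF.1
    intro a ha
    apply h
    simp [ha, hb]
  · intro a j haj x
    obtain ⟨b, hb, hbj⟩ := Option.bind_eq_some_iff.mp haj
    obtain ⟨c, e, h1⟩ := hF.2 a b hb x
    obtain ⟨c', e', h2⟩ := hG.2 b j hbj (F x)
    refine ⟨c' * c, c' * e + e', fun z => ?_⟩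
    have h3 : G (F (Function.update x a z)) j = G (Function.update (F x) b (c * z + e)) j := by
      apply hG.1
      intro b' hb'
      by_cases hbb : b' = b
      · subst hbb
        simp [h1]
      · rw [Function.update_of_ne hbb]
        apply hF.1
        intro a' ha'
        have : a' ≠ a := by
          rintro rfl
          rw [hb] at ha'
          exact hbb (by simpa using ha'.symm)
        exact Function.update_of_ne this _ _
    show G (F (Function.update x a z)) j = _
    rw [h3, h2]
    ring

open Classical in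
/-- The flow of a tuple of terms. -/
noncomputable def flow {d : ℕ} (p : Fin d → Term d) (a : Fin d) : Option (Fin d) :=
  if h : ∃ j, 0 < (p j).occ a then some h.choose else none

lemma occ_unique {d : ℕ} (p : Fin d → Term d) (a : Fin d) (h : ∑ j, (p j).occ a ≤ 1)
    {j k : Fin d} (hj : 0 < (p j).occ a) (hk : 0 < (p k).occ a) : j = k := by
  by_contra hjk
  have h1 : ∑ i ∈ ({j, k} : Finset (Fin d)), (p i).occ a ≤ ∑ i, (p i).occ a :=
    Finset.sum_le_sum_of_subset (Finset.subset_univ _)
  rw [Finset.sum_pair hjk] at h1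
  omega

lemma flow_eq {d : ℕ} (p : Fin d → Term d) (a : Fin d) (h : ∑ j, (p j).occ a ≤ 1)
    {j : Fin d} (hj : 0 < (p j).occ a) : flow p a = some j := by
  unfold flow
  have hex : ∃ j, 0 < (p j).occ a := ⟨j, hj⟩
  rw [dif_pos hex]
  congr 1
  exact occ_unique p a h hex.choose_spec hj

lemma CL_terms {d : ℕ} {K : Type} [Field K] (p : Fin d → Term d)
    (h : ∀ i, ∑ j, (p j).occ i ≤ 1) :
    CL (fun (x : Fin d → K) j => (p j).evK x) (flow p) := by
  refine ⟨?_, ?_⟩
  · intro j x y hxy
    apply Term.evK_congr
    intro i hi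
    exact hxy i (flow_eq p i (h i) hi)
  · intro a j _ x
    apply Term.evK_affine
    exact le_trans (Finset.single_le_sum (f := fun j => (p j).occ a)
      (fun _ _ => Nat.zero_le _) (Finset.mem_univ j)) (h a)

/-! ## The action of words -/

section machine

variable {A : Type} (M : CCRA A)

/-- State reached from `q` by a word. -/
def st : M.Q → List A → M.Q
  | q, [] => q
  | q, a :: w => st (M.next q a) w

/-- Action of a word on register contents in a field. -/
def act (K : Type) [Field K] : M.Q → List A → (Fin M.d → K) → (Fin M.d → K)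
  | _, [], x => x
  | q, a :: w, x => act K (M.next q a) w (fun j => (M.upd q a j).evK x)

/-- Flow of a word. -/
noncomputable def sig : M.Q → List A → Fin M.d → Option (Fin M.d)
  | _, [], i => some i
  | q, a :: w, i => (flow (M.upd q a) i).bind (sig (M.next q a) w)

lemma st_append (q : M.Q) (u v : List A) : st M q (u ++ v) = st M (st M q u) v := by
  induction u generalizing q with
  | nil => rfl
  | cons a u ih => simp only [List.cons_append, st]; exact ih _

lemma act_append (K : Type) [Field K] (q : M.Q) (u v : List A) (x : Fin M.d → K) :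
    act M K q (u ++ v) x = act M K (st M q u) v (act M K q u x) := by
  induction u generalizing q x with
  | nil => rfl
  | cons a u ih => simp only [List.cons_append, st, act]; exact ih _ _

lemma sig_append (q : M.Q) (u v : List A) (i : Fin M.d) :
    sig M q (u ++ v) i = (sig M q u i).bind (sig M (st M q u) v) := by
  induction u generalizing q i with
  | nil => rfl
  | cons a u ih =>
    simp only [List.cons_append, st, sig]
    cases h : flow (M.upd q a) i with
    | none => rfl
    | some j => simp only [Option.bind_some]; exact ih _ _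

lemma CL_act (K : Type) [Field K] (q : M.Q) (w : List A) :
    CL (act M K q w) (sig M q w) := by
  induction w generalizing q with
  | nil => exact CL_id
  | cons a w ih =>
    have h := CL_comp (CL_terms (K := K) (M.upd q a) (M.upd_copyless q a)) (ih (M.next q a))
    exact h

/-- The registers that depend on the past. -/
noncomputable def im (q : M.Q) (w : List A) : Finset (Fin M.d) :=
  by classical exact Finset.univ.filter (fun j => ∃ a, sig M q w a = some j)

lemma mem_im (q : M.Q) (w : List A) (j : Fin M.d) :
    j ∈ im M q w ↔ ∃ a, sig M q w a = some j := by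
  classical
  simp [im]

lemma im_append_subset (q : M.Q) (u v : List A) :
    im M q (u ++ v) ⊆ im M (st M q u) v := by
  intro j hj
  rw [mem_im] at hj ⊢
  obtain ⟨a, ha⟩ := hj
  rw [sig_append] at ha
  obtain ⟨b, _, hb⟩ := Option.bind_eq_some_iff.mp ha
  exact ⟨b, hb⟩

lemma card_im_append_le (q : M.Q) (u v : List A) :
    (im M q (u ++ v)).card ≤ (im M q u).card := by
  classical
  -- inject `im (u ++ v)` into `im u`
  have h : ∀ j ∈ im M q (u ++ v), ∃ b ∈ im M q u, sig M (st M q u) v b = some j := by
    intro j hj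
    rw [mem_im] at hj
    obtain ⟨a, ha⟩ := hj
    rw [sig_append] at ha
    obtain ⟨b, hb, hb'⟩ := Option.bind_eq_some_iff.mp ha
    exact ⟨b, (mem_im M q u b).mpr ⟨a, hb⟩, hb'⟩
  choose! g hg1 hg2 using h
  refine Finset.card_le_card_of_injOn g (fun j hj => hg1 j hj) ?_
  intro j hj k hk hjk
  have h1 := hg2 j hj
  have h2 := hg2 k hk
  rw [hjk, h2] at h1
  simpa using h1.symm

/-- A state in which returning is always possible, together with a loop that forgets as much as
possible. -/
lemma exists_core : ∃ (u f : List A), st M (st M M.q0 u) f = st M M.q0 u ∧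
    (∀ w, ∃ r, st M (st M M.q0 u) (w ++ r) = st M M.q0 u) ∧
    (∀ w, (im M (st M M.q0 u) f).card ≤ (im M (st M M.q0 u) w).card) := by
  classical
  have := M.finQ
  -- a state with the fewest reachable states
  let reach : M.Q → Set M.Q := fun q => {q' | ∃ w, st M q w = q'}
  obtain ⟨u1, hu1⟩ : ∃ u1 : List A, ∀ u : List A,
      (reach (st M M.q0 u1)).ncard ≤ (reach (st M M.q0 u)).ncard := by
    obtain ⟨u1, hu1⟩ := Function.argmin (fun u : List A => (reach (st M M.q0 u)).ncard) |>
      fun u1 => (⟨u1, fun u => Function.argmin_le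
        (fun u : List A => (reach (st M M.q0 u)).ncard) u⟩ :
        ∃ u1 : List A, ∀ u : List A,
          (reach (st M M.q0 (Function.argmin
            (fun u : List A => (reach (st M M.q0 u)).ncard)))).ncard ≤
            (reach (st M M.q0 u)).ncard)
    exact ⟨_, hu1⟩
  have hret : ∀ w, ∃ r, st M (st M M.q0 u1) (w ++ r) = st M M.q0 u1 := by
    intro w
    have hsub : reach (st M (st M M.q0 u1) w) ⊆ reach (st M M.q0 u1) := by
      rintro q' ⟨v, rfl⟩
      exact ⟨w ++ v, st_append M _ _ _⟩
    have hcard := hu1 (u1 ++ w)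
    rw [st_append] at hcard
    have heq := Set.eq_of_subset_of_ncard_le hsub hcard (Set.toFinite _)
    have hmem : st M M.q0 u1 ∈ reach (st M M.q0 u1) := ⟨[], rfl⟩
    rw [← heq] at hmem
    obtain ⟨r, hr⟩ := hmem
    exact ⟨r, by rw [st_append]; exact hr⟩
  -- minimise the rank
  let rk : List A × List A → ℕ := fun s => (im M (st M (st M M.q0 u1) s.1) s.2).card
  obtain ⟨s, hs⟩ : ∃ s, ∀ s', rk s ≤ rk s' :=
    ⟨Function.argmin rk, fun s' => Function.argmin_le rk s'⟩
  have hret2 : ∀ w, ∃ r, st M (st M (st M M.q0 u1) s.1) (w ++ r) = st M (st M M.q0 u1) s.1 := by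
    intro w
    obtain ⟨r, hr⟩ := hret (s.1 ++ w)
    refine ⟨r ++ s.1, ?_⟩
    rw [List.append_assoc, st_append] at hr
    rw [← List.append_assoc, st_append, hr]
  obtain ⟨r, hr⟩ := hret2 s.2
  refine ⟨u1 ++ s.1, s.2 ++ r, ?_, ?_, ?_⟩
  · rw [st_append M M.q0]; exact hr
  · intro w
    rw [st_append M M.q0]; exact hret2 w
  · intro w
    rw [st_append M M.q0]
    calc (im M (st M (st M M.q0 u1) s.1) (s.2 ++ r)).card
        ≤ (im M (st M (st M M.q0 u1) s.1) s.2).card := card_im_append_le M _ _ _
      _ ≤ _ := hs (s.1, w)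

/-- Along loops the surviving registers are permuted. -/
lemma core_perm (q : M.Q) (f : List A) (hf : st M q f = q)
    (hmin : ∀ w, (im M q f).card ≤ (im M q w).card) (v : List A) (hv : st M q v = q) :
    ∃ π : Equiv.Perm (Fin M.d), ∀ j ∈ im M q f, π j ∈ im M q f ∧
      sig M q (v ++ f) (π j) = some j ∧
      ∀ b ∈ im M q f, sig M q (v ++ f) b = some j → b = π j := by
  classical
  have hsub : im M q (f ++ (v ++ f)) ⊆ im M q f := by
    intro j hj
    have h1 := im_append_subset M q f (v ++ f) hj
    rw [hf] at h1
    have h2 := im_append_subset M q v f h1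
    rwa [hv] at h2
  have heq : im M q (f ++ (v ++ f)) = im M q f :=
    Finset.eq_of_subset_of_card_le hsub (hmin _)
  have hex : ∀ j ∈ im M q f, ∃ b ∈ im M q f, sig M q (v ++ f) b = some j := by
    intro j hj
    rw [← heq, mem_im] at hj
    obtain ⟨a, ha⟩ := hj
    rw [sig_append, hf] at ha
    obtain ⟨b, hb, hb'⟩ := Option.bind_eq_some_iff.mp ha
    exact ⟨b, (mem_im M q f b).mpr ⟨a, hb⟩, hb'⟩
  choose! g hg1 hg2 using hex
  have hinj : ∀ j ∈ im M q f, ∀ k ∈ im M q f, g j = g k → j = k := by
    intro j hj k hk hjk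
    have h1 := hg2 j hj
    have h2 := hg2 k hk
    rw [hjk, h2] at h1
    simpa using h1.symm
  have hsurj : ∀ b ∈ im M q f, ∃ j ∈ im M q f, g j = b := by
    intro b hb
    have himg : (im M q f).image g = im M q f := by
      apply Finset.eq_of_subset_of_card_le
      · intro c hc
        obtain ⟨j, hj, rfl⟩ := Finset.mem_image.mp hc
        exact hg1 j hj
      · rw [Finset.card_image_of_injOn]
        intro j hj k hk hjk
        exact hinj j hj k hk hjk
    rw [← himg] at hb
    obtain ⟨j, hj, rfl⟩ := Finset.mem_image.mp hb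
    exact ⟨j, hj, rfl⟩
  let π' : Fin M.d → Fin M.d := fun j => if j ∈ im M q f then g j else j
  have hπinj : Function.Injective π' := by
    intro j k hjk
    by_cases hj : j ∈ im M q f
    · by_cases hk : k ∈ im M q f
      · simp only [π', if_pos hj, if_pos hk] at hjk
        exact hinj j hj k hk hjk
      · simp only [π', if_pos hj, if_neg hk] at hjk
        exact absurd (hjk ▸ hg1 j hj) hk
    · by_cases hk : k ∈ im M q f
      · simp only [π', if_neg hj, if_pos hk] at hjk
        exact absurd (hjk ▸ hg1 k hk) hj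
      · simp only [π', if_neg hj, if_neg hk] at hjk
        exact hjk
  refine ⟨Equiv.ofBijective π' (Finite.injective_iff_bijective.mp hπinj), ?_⟩
  intro j hj
  have hval : (Equiv.ofBijective π' (Finite.injective_iff_bijective.mp hπinj)) j = g j := by
    simp [π', hj]
  rw [hval]
  refine ⟨hg1 j hj, hg2 j hj, ?_⟩
  intro b hb hbj
  obtain ⟨k, hk, rfl⟩ := hsurj b hb
  have h2 := hg2 k hk
  rw [hbj] at h2
  have : j = k := by simpa using h2
  rw [this]

/-- Along loops, after the word `f`, the registers are updated by affine maps of one register. -/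
lemma core_act (K : Type) [Field K] (q : M.Q) (f : List A) (hf : st M q f = q)
    (hmin : ∀ w, (im M q f).card ≤ (im M q w).card) (v : List A) (hv : st M q v = q) :
    ∃ (π : Equiv.Perm (Fin M.d)) (c e : Fin M.d → K), ∀ x : Fin M.d → K,
      act M K q (v ++ f) (act M K q f x) =
        fun j => c j * (act M K q f x) (π j) + e j := by
  classical
  obtain ⟨π, hπ⟩ := core_perm M q f hf hmin v hv
  have hCf := CL_act M K q f
  have hCv := CL_act M K q (v ++ f)
  -- the constant registers
  let κ : Fin M.d → K := act M K q f 0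
  have hκ : ∀ x, ∀ j, j ∉ im M q f → act M K q f x j = κ j := by
    intro x j hj
    apply hCf.1
    intro a ha
    exact absurd ((mem_im M q f j).mpr ⟨a, ha⟩) hj
  let base : Fin M.d → K := fun i => if i ∈ im M q f then 0 else κ i
  have haff : ∀ j ∈ im M q f, ∃ c e : K, ∀ z,
      act M K q (v ++ f) (Function.update base (π j) z) j = c * z + e := by
    intro j hj
    exact hCv.2 (π j) j (hπ j hj).2.1 base
  choose! c e hce using haff
  refine ⟨π, fun j => if j ∈ im M q f then c j else 0,
    fun j => if j ∈ im M q f then e j else κ j, fun x => ?_⟩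
  funext j
  by_cases hj : j ∈ im M q f
  · simp only [if_pos hj]
    rw [← hce j hj]
    apply hCv.1
    intro a ha
    by_cases haD : a ∈ im M q f
    · have : a = π j := (hπ j hj).2.2 a haD ha
      rw [this]
      simp
    · have hne : a ≠ π j := by
        rintro rfl
        exact haD (hπ j hj).1
      rw [Function.update_of_ne hne]
      simp only [base, if_neg haD]
      exact hκ x a haD
  · simp only [if_neg hj, zero_mul, zero_add]
    rw [act_append, hv]
    exact hκ _ j hj

/-- Powers of a word. -/
def pw (w : List A) : ℕ → List A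
  | 0 => []
  | n + 1 => w ++ pw w n

lemma st_pw (q : M.Q) (w : List A) (hw : st M q w = q) (n : ℕ) : st M q (pw w n) = q := by
  induction n with
  | zero => rfl
  | succ n ih => rw [pw, st_append, hw, ih]

lemma act_pw (K : Type) [Field K] (q : M.Q) (w : List A) (hw : st M q w = q) (n : ℕ)
    (x : Fin M.d → K) : act M K q (pw w n) x = (act M K q w)^[n] x := by
  induction n generalizing x with
  | zero => rfl
  | succ n ih => rw [pw, act_append, hw, ih, Function.iterate_succ_apply]

/-- Suitable powers of a monomial affine map over `ZMod p` are retractions. -/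
lemma exists_retraction {d p : ℕ} [Fact p.Prime] (π : Equiv.Perm (Fin d))
    (c e : Fin d → ZMod p) : ∃ (K : ℕ) (P : Finset (Fin d)) (k : Fin d → ZMod p), 0 < K ∧
      ∀ y : Fin d → ZMod p, (fun (y : Fin d → ZMod p) j => c j * y (π j) + e j)^[K] y =
        fun j => if j ∈ P then k j else y j := by
  classical
  set Ψ : (Fin d → ZMod p) → (Fin d → ZMod p) := fun y j => c j * y (π j) + e j with hΨ
  have h1 : ∀ m : ℕ, ∃ c' e' : Fin d → ZMod p, ∀ y j, Ψ^[m] y j = c' j * y ((π ^ m) j) + e' j := by
    intro m
    induction m with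
    | zero => exact ⟨fun _ => 1, fun _ => 0, fun y j => by simp⟩
    | succ m ih =>
      obtain ⟨c', e', h⟩ := ih
      refine ⟨fun j => c' j * c ((π ^ m) j), fun j => c' j * e ((π ^ m) j) + e' j, ?_⟩
      intro y j
      rw [Function.iterate_succ_apply, h]
      simp only [hΨ]
      have : (π ^ (m + 1)) j = π ((π ^ m) j) := by
        rw [pow_succ']; rfl
      rw [this]
      ring
  obtain ⟨c', e', h2⟩ := h1 (Fintype.card (Equiv.Perm (Fin d)))
  have hπ1 : π ^ Fintype.card (Equiv.Perm (Fin d)) = 1 := pow_card_eq_one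
  rw [hπ1] at h2
  simp only [Equiv.Perm.coe_one, id_eq] at h2
  -- coordinatewise
  have h3 : ∀ m : ℕ, ∀ y j, (Ψ^[Fintype.card (Equiv.Perm (Fin d))])^[m] y j =
      (fun z => c' j * z + e' j)^[m] (y j) := by
    intro m
    induction m with
    | zero => intro y j; rfl
    | succ m ih =>
      intro y j
      rw [Function.iterate_succ_apply, Function.iterate_succ_apply, ih, h2]
  refine ⟨Fintype.card (Equiv.Perm (Fin d)) * Fintype.card (Equiv.Perm (ZMod p)),
    Finset.univ.filter (fun j => c' j = 0), e', ?_, ?_⟩
  · exact Nat.mul_pos Fintype.card_pos Fintype.card_pos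
  · intro y
    rw [Function.iterate_mul]
    funext j
    rw [h3]
    by_cases hj : c' j = 0
    · rw [if_pos (by simp [hj])]
      obtain ⟨m, hm⟩ : ∃ m, Fintype.card (Equiv.Perm (ZMod p)) = m + 1 :=
        ⟨_, (Nat.succ_pred_eq_of_pos Fintype.card_pos).symm⟩
      rw [hm, Function.iterate_succ_apply']
      simp [hj]
    · rw [if_neg (by simp [hj])]
      have hinj : Function.Injective (fun z : ZMod p => c' j * z + e' j) := by
        intro a b hab
        simp only at hab
        exact mul_left_cancel₀ hj (add_right_cancel hab)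
      have hbij := Finite.injective_iff_bijective.mp hinj
      have h4 : (fun z : ZMod p => c' j * z + e' j) = ⇑(Equiv.ofBijective _ hbij) := rfl
      rw [h4, Equiv.Perm.iterate_eq_pow, pow_card_eq_one]
      rfl

/-- Powers of loops act as retractions after `f`. -/
lemma loop_retraction {p : ℕ} [Fact p.Prime] (q : M.Q) (f : List A) (hf : st M q f = q)
    (hmin : ∀ w, (im M q f).card ≤ (im M q w).card) (v : List A) (hv : st M q v = q) :
    ∃ (K : ℕ) (P : Finset (Fin M.d)) (k : Fin M.d → ZMod p), 0 < K ∧
      ∀ x : Fin M.d → ZMod p,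
        (act M (ZMod p) q (pw (v ++ f) K) (act M (ZMod p) q f x) =
          fun j => if j ∈ P then k j else act M (ZMod p) q f x j) ∧
        ∃ x', act M (ZMod p) q (pw (v ++ f) K) (act M (ZMod p) q f x) =
          act M (ZMod p) q f x' := by
  obtain ⟨π, c, e, hce⟩ := core_act M (ZMod p) q f hf hmin v hv
  obtain ⟨K, P, k, hK, hPk⟩ := exists_retraction π c e
  have hvf : st M q (v ++ f) = q := by rw [st_append, hv, hf]
  have hit : ∀ (n : ℕ) (x : Fin M.d → ZMod p),
      (act M (ZMod p) q (v ++ f))^[n] (act M (ZMod p) q f x) =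
        (fun (y : Fin M.d → ZMod p) j => c j * y (π j) + e j)^[n] (act M (ZMod p) q f x) := by
    intro n
    induction n with
    | zero => intro x; rfl
    | succ n ih =>
      intro x
      rw [Function.iterate_succ_apply, Function.iterate_succ_apply]
      rw [← hce x, act_append, hv, ih]
  refine ⟨K, P, k, hK, fun x => ⟨?_, ?_⟩⟩
  · rw [act_pw M _ q _ hvf, hit, hPk]
  · obtain ⟨n, rfl⟩ : ∃ n, K = n + 1 := ⟨K - 1, by omega⟩
    rw [act_pw M _ q _ hvf, Function.iterate_succ_apply', act_append, hv]
    exact ⟨_, rfl⟩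

end machine

/-! ## Reduction modulo a large prime -/

/-- A bound for the denominators of the constants of a term. -/
def Term.bnd {d : ℕ} : Term d → ℕ
  | .var _ => 0
  | .const c => c.den
  | .add s t => max s.bnd t.bnd
  | .mul s t => max s.bnd t.bnd

lemma Term.ev_mod {d p : ℕ} [Fact p.Prime] (t : Term d) (ht : t.bnd < p) (x : Fin d → ℚ)
    (hx : ∀ i, (((x i).den : ℕ) : ZMod p) ≠ 0) :
    (((t.eval x).den : ℕ) : ZMod p) ≠ 0 ∧
      ((t.eval x : ℚ) : ZMod p) = t.evK (fun i => ((x i : ℚ) : ZMod p)) := by
  induction t with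
  | var j => exact ⟨hx j, rfl⟩
  | const c =>
    refine ⟨?_, rfl⟩
    simp only [Term.bnd] at ht
    simp only [Term.eval]
    intro h
    rw [ZMod.natCast_eq_zero_iff] at h
    exact absurd (Nat.le_of_dvd c.den_pos h) (by omega)
  | add s t ihs iht =>
    simp only [Term.bnd] at ht
    obtain ⟨hs1, hs2⟩ := ihs (lt_of_le_of_lt (le_max_left _ _) ht)
    obtain ⟨ht1, ht2⟩ := iht (lt_of_le_of_lt (le_max_right _ _) ht)
    refine ⟨?_, ?_⟩
    · simp only [Term.eval]
      intro h
      rw [ZMod.natCast_eq_zero_iff] at h
      have h1 := h.trans (Rat.add_den_dvd (s.eval x) (t.eval x))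
      rw [← ZMod.natCast_eq_zero_iff, Nat.cast_mul] at h1
      exact (mul_ne_zero hs1 ht1) h1
    · simp only [Term.eval, Term.evK]
      rw [Rat.cast_add_of_ne_zero hs1 ht1, hs2, ht2]
  | mul s t ihs iht =>
    simp only [Term.bnd] at ht
    obtain ⟨hs1, hs2⟩ := ihs (lt_of_le_of_lt (le_max_left _ _) ht)
    obtain ⟨ht1, ht2⟩ := iht (lt_of_le_of_lt (le_max_right _ _) ht)
    refine ⟨?_, ?_⟩
    · simp only [Term.eval]
      intro h
      rw [ZMod.natCast_eq_zero_iff] at h
      have h1 := h.trans (Rat.mul_den_dvd (s.eval x) (t.eval x))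
      rw [← ZMod.natCast_eq_zero_iff, Nat.cast_mul] at h1
      exact (mul_ne_zero hs1 ht1) h1
    · simp only [Term.eval, Term.evK]
      rw [Rat.cast_mul_of_ne_zero hs1 ht1, hs2, ht2]

lemma run_mod {A : Type} (M : CCRA A) {p : ℕ} [Fact p.Prime]
    (hupd : ∀ q a j, (M.upd q a j).bnd < p) (w : List A) :
    ∀ (q : M.Q) (x : Fin M.d → ℚ), (∀ i, (((x i).den : ℕ) : ZMod p) ≠ 0) →
      (M.run w (q, x)).1 = st M q w ∧
      (∀ i, ((((M.run w (q, x)).2 i).den : ℕ) : ZMod p) ≠ 0) ∧
      (fun i => (((M.run w (q, x)).2 i : ℚ) : ZMod p)) =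
        act M (ZMod p) q w (fun i => ((x i : ℚ) : ZMod p)) := by
  induction w with
  | nil => intro q x hx; exact ⟨rfl, hx, rfl⟩
  | cons a w ih =>
    intro q x hx
    have h1 : ∀ j, (((((M.upd q a j).eval x).den : ℕ) : ZMod p) ≠ 0) := fun j =>
      ((M.upd q a j).ev_mod (hupd q a j) x hx).1
    obtain ⟨h2, h3, h4⟩ := ih (M.next q a) (fun j => (M.upd q a j).eval x) h1
    refine ⟨h2, h3, ?_⟩
    simp only [CCRA.run, act]
    rw [h4]
    congr 1
    funext j
    exact ((M.upd q a j).ev_mod (hupd q a j) x hx).2

lemma value_mod {A : Type} (M : CCRA A) {p : ℕ} [Fact p.Prime]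
    (hupd : ∀ q a j, (M.upd q a j).bnd < p) (hout : ∀ q, (M.out q).bnd < p)
    (hinit : ∀ i, (((M.init i).den : ℕ) : ZMod p) ≠ 0) (w : List A) :
    ((M.value w : ℚ) : ZMod p) = (M.out (st M M.q0 w)).evK
      (act M (ZMod p) M.q0 w (fun i => ((M.init i : ℚ) : ZMod p))) := by
  obtain ⟨h1, h2, h3⟩ := run_mod M hupd w M.q0 M.init hinit
  unfold CCRA.value
  rw [((M.out _).ev_mod (hout _) _ h2).2, h3, h1]

/-! ## The function -/

open Classical in
/-- One step: letter `a` increments the second number, letter `b` replaces `(x, y)` by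
`(x * y + 1, 1)`, every other letter does nothing. -/
noncomputable def stepN {A : Type} (a b l : A) (c : ℕ × ℕ) : ℕ × ℕ :=
  if l = a then (c.1, c.2 + 1) else if l = b then (c.1 * c.2 + 1, 1) else c

/-- The function: start with `(0, 1)`, read the word from left to right, return the first
number. -/
noncomputable def theF {A : Type} (a b : A) (w : List A) : ℚ :=
  ((w.foldl (fun c l => stepN a b l c) (0, 1)).1 : ℚ)

/-- The reversed function as a right fold. -/
noncomputable def gN {A : Type} (a b : A) (w : List A) : ℕ × ℕ := w.foldr (stepN a b) (0, 1)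

lemma theF_reverse {A : Type} (a b : A) (w : List A) :
    theF a b w.reverse = ((gN a b w).1 : ℚ) := by
  unfold theF gN
  rw [List.foldl_reverse]

open Classical in
/-- The one-state machine for `theF`. -/
noncomputable def theM {A : Type} (a b : A) : CCRA A where
  Q := Unit
  finQ := inferInstance
  q0 := ()
  d := 2
  next := fun _ _ => ()
  upd := fun _ l => if l = a then ![.var 0, .add (.var 1) (.const 1)] else
    if l = b then ![.add (.mul (.var 0) (.var 1)) (.const 1), .const 1] else ![.var 0, .var 1]
  upd_copyless := by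
    intro _ l i
    split_ifs <;> fin_cases i <;> simp [Term.occ, Fin.sum_univ_two]
  init := ![0, 1]
  out := fun _ => .var 0
  out_copyless := by
    intro _ i
    fin_cases i <;> simp [Term.occ]

lemma theM_run {A : Type} (a b : A) (w : List A) : ∀ c : ℕ × ℕ,
    (theM a b).run w ((), (![(c.1 : ℚ), (c.2 : ℚ)] : Fin 2 → ℚ)) =
      ((), (![(((w.foldl (fun c l => stepN a b l c) c).1 : ℕ) : ℚ),
        (((w.foldl (fun c l => stepN a b l c) c).2 : ℕ) : ℚ)] : Fin 2 → ℚ)) := by
  classical
  induction w with
  | nil => intro c; rfl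
  | cons l w ih =>
    intro c
    rw [List.foldl_cons, ← ih (stepN a b l c)]
    show (theM a b).run w ((), fun j => ((theM a b).upd () l j).eval ![(c.1 : ℚ), (c.2 : ℚ)]) = _
    congr 2
    funext j
    unfold stepN
    simp only [theM]
    split_ifs <;> fin_cases j <;> simp <;> rfl

lemma theF_recognisable {A : Type} (a b : A) : Recognisable (theF a b) := by
  refine ⟨theM a b, fun w => ?_⟩
  have h0 : (((theM a b).q0, (theM a b).init) : (theM a b).Q × (Fin (theM a b).d → ℚ)) =
      ((), (![(((0, 1) : ℕ × ℕ).1 : ℚ), (((0, 1) : ℕ × ℕ).2 : ℚ)] : Fin 2 → ℚ)) := by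
    simp [theM]
  have h := (congrArg (fun c => (theM a b).run w c) h0).trans (theM_run a b w (0, 1))
  unfold CCRA.value
  rw [h]
  rfl

lemma foldr_affine {A : Type} (a b : A) (u : List A) : ∃ α β γ : ℕ, 0 < β ∧ 0 < γ ∧
    ∀ x, u.foldr (stepN a b) (x, 1) = (α + β * x, γ) := by
  classical
  induction u with
  | nil => exact ⟨0, 1, 1, one_pos, one_pos, fun x => by simp⟩
  | cons l u ih =>
    obtain ⟨α, β, γ, hβ, hγ, h⟩ := ih
    by_cases hla : l = a
    · refine ⟨α, β, γ + 1, hβ, Nat.succ_pos _, fun x => ?_⟩
      rw [List.foldr_cons, h]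
      simp [stepN, hla]
    · by_cases hlb : l = b
      · refine ⟨α * γ + 1, β * γ, 1, Nat.mul_pos hβ hγ, one_pos, fun x => ?_⟩
        rw [List.foldr_cons, h]
        simp only [stepN, if_neg hla, if_pos hlb]
        congr 1
        ring
      · refine ⟨α, β, γ, hβ, hγ, fun x => ?_⟩
        rw [List.foldr_cons, h]
        simp [stepN, hla, hlb]

lemma foldr_replicate {A : Type} (a b : A) (n : ℕ) (c : ℕ × ℕ) :
    (List.replicate n a).foldr (stepN a b) c = (c.1, c.2 + n) := by
  classical
  induction n with
  | zero => simp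
  | succ n ih =>
    rw [List.replicate_succ, List.foldr_cons, ih]
    simp [stepN, add_assoc]

/-- The word `b a^i b a^(p-1) b`. -/
def xw {A : Type} (a b : A) (p i : ℕ) : List A :=
  b :: (List.replicate i a ++ b :: (List.replicate (p - 1) a ++ [b]))

lemma foldr_xw {A : Type} (a b : A) (hab : a ≠ b) {p : ℕ} (hp : 0 < p) (i : ℕ) (c : ℕ × ℕ) :
    ∃ N : ℕ, (xw a b p i).foldr (stepN a b) c = (N, 1) ∧ (N : ZMod p) = i + 2 := by
  classical
  have hb : ∀ c, stepN a b b c = (c.1 * c.2 + 1, 1) := by
    intro c
    simp [stepN, hab.symm]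
  refine ⟨((c.1 * c.2 + 1) * p + 1) * (i + 1) + 1, ?_, ?_⟩
  · unfold xw
    rw [List.foldr_cons, List.foldr_append, List.foldr_cons, List.foldr_append,
      List.foldr_cons, List.foldr_nil]
    simp only [hb, foldr_replicate]
    have : 1 + (p - 1) = p := by omega
    rw [this, add_comm 1 i]
  · push_cast
    rw [ZMod.natCast_self]
    ring

/-- **Main theorem.** For every finite alphabet with at least two letters there is a function
recognised by a copyless cost register automaton over `ℚ` whose reversal is not recognised by any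
copyless cost register automaton over `ℚ`. -/
theorem result (A : Type) [Finite A] (hA : 2 ≤ Nat.card A) :
    ∃ f : List A → ℚ, Recognisable f ∧ ¬ Recognisable (fun w => f w.reverse) := by
  classical
  have : Nontrivial A := Finite.one_lt_card_iff_nontrivial.mp hA
  obtain ⟨a, b, hab⟩ := exists_pair_ne A
  refine ⟨theF a b, theF_recognisable a b, ?_⟩
  rintro ⟨M, hM⟩
  have hfin := M.finQ
  obtain ⟨u, f, hf, hret, hmin⟩ := exists_core M
  set q := st M M.q0 u with hq
  obtain ⟨α, β, γ, hβ, -, haff⟩ := foldr_affine a b (u ++ f)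
  -- bounds for the constants
  obtain ⟨B1, hB1⟩ : ∃ B1 : ℕ, ∀ q l j, (M.upd q l j).bnd ≤ B1 := by
    have hfin2 : (Set.range fun s : M.Q × A × Fin M.d => (M.upd s.1 s.2.1 s.2.2).bnd).Finite :=
      Set.finite_range _
    obtain ⟨B, hB⟩ := hfin2.bddAbove
    exact ⟨B, fun q l j => hB ⟨(q, l, j), rfl⟩⟩
  obtain ⟨B2, hB2⟩ : ∃ B2 : ℕ, ∀ q, (M.out q).bnd ≤ B2 := by
    have hfin2 : (Set.range fun q : M.Q => (M.out q).bnd).Finite := Set.finite_range _
    obtain ⟨B, hB⟩ := hfin2.bddAbove
    exact ⟨B, fun q => hB ⟨q, rfl⟩⟩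
  obtain ⟨B3, hB3⟩ : ∃ B3 : ℕ, ∀ i, (M.init i).den ≤ B3 := by
    have hfin2 : (Set.range fun i => (M.init i).den).Finite := Set.finite_range _
    obtain ⟨B, hB⟩ := hfin2.bddAbove
    exact ⟨B, fun i => hB ⟨i, rfl⟩⟩
  obtain ⟨p, hple, hpp⟩ := Nat.exists_infinite_primes (B1 + B2 + B3 + β + 2 ^ M.d + 2)
  have : Fact p.Prime := ⟨hpp⟩
  have h2d : 0 < 2 ^ M.d := by positivity
  have hupd : ∀ q a j, (M.upd q a j).bnd < p := fun q l j => by
    have := hB1 q l j; omega
  have hout : ∀ q, (M.out q).bnd < p := fun q => by
    have := hB2 q; omega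
  have hinit : ∀ i, (((M.init i).den : ℕ) : ZMod p) ≠ 0 := by
    intro i h
    rw [ZMod.natCast_eq_zero_iff] at h
    have h1 := Nat.le_of_dvd (M.init i).den_pos h
    have h2 := hB3 i
    omega
  -- the loops
  have hloops : ∀ i : Fin (2 ^ M.d + 1), ∃ r, st M q (xw a b p i ++ r) = q := fun i =>
    hret (xw a b p i)
  choose r hr using hloops
  have hR := fun i : Fin (2 ^ M.d + 1) =>
    loop_retraction (p := p) M q f hf hmin (xw a b p i ++ r i) (hr i)
  choose K P k hK hPk using hR
  obtain ⟨i, j, hij, hPij⟩ := Fintype.exists_ne_map_eq_of_card_lt P (by simp)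
  set Wi := pw ((xw a b p i ++ r i) ++ f) (K i) with hWi
  set Wj := pw ((xw a b p j ++ r j) ++ f) (K j) with hWj
  have hsti : st M q Wi = q := st_pw M q _ (by rw [st_append, hr i, hf]) _
  have hstj : st M q Wj = q := st_pw M q _ (by rw [st_append, hr j, hf]) _
  -- the automaton cannot see the difference
  set x0 : Fin M.d → ZMod p := fun i => ((M.init i : ℚ) : ZMod p) with hx0
  set x1 := act M (ZMod p) M.q0 u x0 with hx1
  have hact : act M (ZMod p) M.q0 ((u ++ f) ++ (Wi ++ Wj)) x0 =
      act M (ZMod p) M.q0 ((u ++ f) ++ Wj) x0 := by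
    have e1 : act M (ZMod p) M.q0 ((u ++ f) ++ (Wi ++ Wj)) x0 =
        act M (ZMod p) q Wj (act M (ZMod p) q Wi (act M (ZMod p) q f x1)) := by
      rw [act_append, act_append M _ M.q0 u f, st_append, act_append M _ _ Wi Wj, ← hq, hf, hsti]
    have e2 : act M (ZMod p) M.q0 ((u ++ f) ++ Wj) x0 =
        act M (ZMod p) q Wj (act M (ZMod p) q f x1) := by
      rw [act_append, act_append M _ M.q0 u f, st_append, ← hq, hf]
    rw [e1, e2]
    obtain ⟨x', hx'⟩ := (hPk i x1).2
    have h1 := (hPk i x1).1
    have h2 := (hPk j x').1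
    have h3 := (hPk j x1).1
    rw [← hWi] at hx' h1
    rw [← hWj] at h2 h3
    rw [hx', h2, h3, ← hx', h1]
    funext t
    rw [hPij]
    by_cases ht : t ∈ P j
    · simp [ht]
    · simp [ht]
  have hst : st M M.q0 ((u ++ f) ++ (Wi ++ Wj)) = st M M.q0 ((u ++ f) ++ Wj) := by
    rw [st_append, st_append M M.q0 u f, ← hq, hf, st_append, hsti, hstj]
    rw [st_append, st_append M M.q0 u f, ← hq, hf, hstj]
  have hval : ((M.value ((u ++ f) ++ (Wi ++ Wj)) : ℚ) : ZMod p) =
      ((M.value ((u ++ f) ++ Wj) : ℚ) : ZMod p) := by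
    rw [value_mod M hupd hout hinit, value_mod M hupd hout hinit, hst, ← hx0, hact]
  simp only [hM, theF_reverse, Rat.cast_natCast] at hval
  -- the function sees the difference
  have hgen : ∀ (i : Fin (2 ^ M.d + 1)) (z : List A), ((gN a b ((u ++ f) ++
      (pw ((xw a b p i ++ r i) ++ f) (K i) ++ z))).1 : ZMod p) = α + β * (i + 2) := by
    intro i z
    obtain ⟨n, hn⟩ : ∃ n, K i = n + 1 := ⟨K i - 1, by have := hK i; omega⟩
    unfold gN
    obtain ⟨N, hN1, hN2⟩ := foldr_xw a b hab hpp.pos i
      (List.foldr (stepN a b) (0, 1) (r i ++ (f ++ (pw ((xw a b p i ++ r i) ++ f) n ++ z))))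
    have e1 : List.foldr (stepN a b) (0, 1) (pw ((xw a b p i ++ r i) ++ f) (K i) ++ z) =
        (N, 1) := by
      rw [hn, pw, List.append_assoc, List.append_assoc, List.append_assoc, List.foldr_append,
        hN1]
    rw [List.foldr_append, e1, haff]
    push_cast
    rw [hN2]
  have hi := hgen i Wj
  have hj := hgen j []
  rw [List.append_nil] at hj
  rw [← hWi] at hi
  rw [← hWj] at hj
  rw [hi, hj] at hval
  have hβ0 : (β : ZMod p) ≠ 0 := by
    intro h
    rw [ZMod.natCast_eq_zero_iff] at h
    have := Nat.le_of_dvd hβ h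
    omega
  have h5 : ((i : ℕ) : ZMod p) = ((j : ℕ) : ZMod p) := by
    have h6 := mul_left_cancel₀ hβ0 (add_left_cancel hval)
    exact add_right_cancel h6
  rw [ZMod.natCast_eq_natCast_iff'] at h5
  have hi' := i.2
  have hj' := j.2
  rw [Nat.mod_eq_of_lt (by omega), Nat.mod_eq_of_lt (by omega)] at h5
  exact hij (Fin.ext h5)

end Pool.Agent.Results.MP_32a6cf_lc.ReversalFails
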